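import Pool.Agent.FSC.Quot

/-!
Let n ≥ 3, let N be a characteristic subgroup of the free group F of rank n such that S = F/N is
simple, let K be any field and m < 2n - 2. Every homomorphism Aut(S) → PGL_m(K) kills the inner
automorphisms, and if Out(S) is solvable, then every homomorphism S → PGL_m(K) is trivial.
-/

set_option autoImplicit false

namespace Pool.Agent.Results.MP_6dc407_al.DegreeBound

universe u

theorem result (n : ℕ) (hn : 3 ≤ n) (N : Subgroup (FreeGroup (Fin n))) [N.Characteristic]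
    [IsSimpleGroup (FreeGroup (Fin n) ⧸ N)] (K : Type u) [Field K] (m : ℕ) (hm : m < 2 * n - 2) :
    (∀ f : MulAut (FreeGroup (Fin n) ⧸ N) →* Matrix.ProjGenLinGroup (Fin m) K,
      ∀ s : FreeGroup (Fin n) ⧸ N, f (MulAut.conj s) = 1) ∧
    ((∃ k : ℕ, derivedSeries (MulAut (FreeGroup (Fin n) ⧸ N)) k ≤
        (MulAut.conj : FreeGroup (Fin n) ⧸ N →* MulAut (FreeGroup (Fin n) ⧸ N)).range) →
      ∀ f : FreeGroup (Fin n) ⧸ N →* Matrix.ProjGenLinGroup (Fin m) K, f = 1) :=
  ⟨fun f s => Pool.Agent.FSC.degree_aut N hn hm f s,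
    fun hOut f => Pool.Agent.FSC.degree_simple N hn hm hOut f⟩

end Pool.Agent.Results.MP_6dc407_al.DegreeBound
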