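import Pool.Agent.FSC.Orb5

/-!
Let n ≥ 3, let N be a characteristic subgroup of the free group F of rank n such that S = F/N is
finite and simple with solvable outer automorphism group. Let U be the subgroup of S generated by
the images of all basis elements but x_i, and let M be any proper subgroup of S. The set U \ S / M
of double cosets (the orbits of U on S / M) has at least three elements; in particular S is never
the product U M. If M contains a conjugate of the image of x_i, then there are at least four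
double cosets and more than 2 ^ (n - 2).
-/

set_option autoImplicit false

namespace Pool.Agent.Results.MP_6dc407_al.DoubleCosets

theorem result (n : ℕ) (hn : 3 ≤ n) (N : Subgroup (FreeGroup (Fin n))) [N.Characteristic]
    [IsSimpleGroup (FreeGroup (Fin n) ⧸ N)] [Finite (FreeGroup (Fin n) ⧸ N)]
    (hOut : ∃ k : ℕ, derivedSeries (MulAut (FreeGroup (Fin n) ⧸ N)) k ≤
      (MulAut.conj : FreeGroup (Fin n) ⧸ N →* MulAut (FreeGroup (Fin n) ⧸ N)).range)
    (i : Fin n) (U M : Subgroup (FreeGroup (Fin n) ⧸ N))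
    (hU : U = Subgroup.closure
      ((fun k : Fin n => (QuotientGroup.mk (FreeGroup.of k) : FreeGroup (Fin n) ⧸ N)) ''
        {k | k ≠ i}))
    (hM : M ≠ ⊤) :
    3 ≤ Nat.card (MulAction.orbitRel.Quotient U ((FreeGroup (Fin n) ⧸ N) ⧸ M)) ∧
    ((∃ g : FreeGroup (Fin n) ⧸ N, g⁻¹ * QuotientGroup.mk (FreeGroup.of i) * g ∈ M) →
      4 ≤ Nat.card (MulAction.orbitRel.Quotient U ((FreeGroup (Fin n) ⧸ N) ⧸ M)) ∧
      2 ^ (n - 2) < Nat.card (MulAction.orbitRel.Quotient U ((FreeGroup (Fin n) ⧸ N) ⧸ M))) := by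
  classical
  obtain ⟨D, hD⟩ := Pool.Agent.FSC.dInner N hn hOut
  have hUV : U = D.V i := by
    rw [hU]
    unfold Pool.Agent.FSC.Dat.V
    rw [hD]
    rfl
  subst hUV
  have := Fintype.ofFinite (FreeGroup (Fin n) ⧸ N)
  have hfinX : Finite ((FreeGroup (Fin n) ⧸ N) ⧸ M) := Quotient.finite _
  have := Fintype.ofFinite ((FreeGroup (Fin n) ⧸ N) ⧸ M)
  have hgen : Subgroup.closure (Set.range D.s) = ⊤ := by
    rw [hD]; exact Pool.Agent.FSC.closure_gx N
  have htr : ∀ x y : (FreeGroup (Fin n) ⧸ N) ⧸ M, ∃ g : FreeGroup (Fin n) ⧸ N, g • x = y :=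
    fun x y => MulAction.exists_smul_eq _ x y
  have hX : ¬ Subsingleton ((FreeGroup (Fin n) ⧸ N) ⧸ M) := by
    rw [QuotientGroup.subsingleton_iff]
    exact hM
  refine ⟨D.three_le hn hgen htr hX, ?_⟩
  rintro ⟨g, hg⟩
  have hsi : D.s i = QuotientGroup.mk (FreeGroup.of i) := by rw [hD]; rfl
  have hx : D.s i • (QuotientGroup.mk g : (FreeGroup (Fin n) ⧸ N) ⧸ M) = QuotientGroup.mk g := by
    rw [hsi]
    show (QuotientGroup.mk (QuotientGroup.mk (FreeGroup.of i) * g) :
      (FreeGroup (Fin n) ⧸ N) ⧸ M) = QuotientGroup.mk g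
    symm
    rw [QuotientGroup.eq, ← mul_assoc]
    exact hg
  obtain ⟨h4, -⟩ := D.card_fix hn hgen htr hX hx
  obtain ⟨k, hk, y, hy⟩ := D.moves hn hgen htr hX hx
  exact ⟨h4, D.card_orbs' hk hy⟩

end Pool.Agent.Results.MP_6dc407_al.DoubleCosets
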