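import Pool.Agent.FSX.Final

/-!
Let n ≥ 3, let N be a characteristic subgroup of the free group F of rank n such that S = F/N is
simple, let K be any field, and let d be such that d ^ 2 < 3 ^ (n / 2), or the characteristic of K
is not two and d ^ 2 < 2 ^ (n - 1), or d < 2 ^ (n - 1) and the image of some basis element has finite
order which is not a power of the characteristic exponent of K. Then every homomorphism
Aut(S) → PGL_d(K) kills the inner automorphisms, and if Out(S) is solvable, then every homomorphism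
S → PGL_d(K) is trivial.
-/

set_option autoImplicit false

namespace Pool.Agent.Results.MP_6dc407_al.ExponentialDegree

universe u

theorem result (n : ℕ) (hn : 3 ≤ n) (N : Subgroup (FreeGroup (Fin n))) [N.Characteristic]
    [IsSimpleGroup (FreeGroup (Fin n) ⧸ N)] (K : Type u) [Field K] (d : ℕ)
    (hd : d ^ 2 < 3 ^ (n / 2) ∨ ((2 : K) ≠ 0 ∧ d ^ 2 < 2 ^ (n - 1)) ∨
      (d < 2 ^ (n - 1) ∧ ∃ i : Fin n,
        0 < orderOf (QuotientGroup.mk (FreeGroup.of i) : FreeGroup (Fin n) ⧸ N) ∧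
        ∀ a : ℕ, orderOf (QuotientGroup.mk (FreeGroup.of i) : FreeGroup (Fin n) ⧸ N) ≠
          ringExpChar K ^ a)) :
    (∀ f : MulAut (FreeGroup (Fin n) ⧸ N) →* Matrix.ProjGenLinGroup (Fin d) K,
      ∀ s : FreeGroup (Fin n) ⧸ N, f (MulAut.conj s) = 1) ∧
    ((∃ k : ℕ, derivedSeries (MulAut (FreeGroup (Fin n) ⧸ N)) k ≤
        (MulAut.conj : FreeGroup (Fin n) ⧸ N →* MulAut (FreeGroup (Fin n) ⧸ N)).range) →
      ∀ f : FreeGroup (Fin n) ⧸ N →* Matrix.ProjGenLinGroup (Fin d) K, f = 1) := by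
  obtain ⟨i, hi⟩ : ∃ i : Fin n, Pool.Agent.FSX.Small n K
      (orderOf (QuotientGroup.mk (FreeGroup.of i) : FreeGroup (Fin n) ⧸ N)) d := by
    rcases hd with hd | hd | ⟨h1, i, h2, h3⟩
    · exact ⟨⟨0, by omega⟩, Or.inl hd⟩
    · exact ⟨⟨0, by omega⟩, Or.inr (Or.inl hd)⟩
    · exact ⟨i, Or.inr (Or.inr ⟨h2, h3, h1⟩)⟩
  exact ⟨fun f s => Pool.Agent.FSX.exp_aut N hn i hi f s,
    fun hOut f => Pool.Agent.FSX.exp_simple N hn i hi hOut f⟩

end Pool.Agent.Results.MP_6dc407_al.ExponentialDegree
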