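import Pool.Agent.FSX.Final

/-!
Let n ≥ 3, let N be a characteristic subgroup of the free group F of rank n such that S = F/N is
finite and simple, let K be any field, let I be a nonempty set of basis elements, U the subgroup
of S generated by their images, and d < 2 ^ (n - |I|). If some homomorphism Aut(S) → PGL_d(K) does
not kill the inner automorphisms, or if Out(S) is solvable and some homomorphism S → PGL_d(K) is
not trivial, then K has prime characteristic p and U is a p-group.
-/

set_option autoImplicit false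

namespace Pool.Agent.Results.MP_6dc407_al.FactorPGroup

universe u

theorem result (n : ℕ) (hn : 3 ≤ n) (N : Subgroup (FreeGroup (Fin n))) [N.Characteristic]
    [IsSimpleGroup (FreeGroup (Fin n) ⧸ N)] [Finite (FreeGroup (Fin n) ⧸ N)]
    (K : Type u) [Field K] (I : Finset (Fin n)) (hI : I.Nonempty) (d : ℕ)
    (hd : d < 2 ^ (n - I.card)) (U : Subgroup (FreeGroup (Fin n) ⧸ N))
    (hU : U = Subgroup.closure
      ((fun i : Fin n => (QuotientGroup.mk (FreeGroup.of i) : FreeGroup (Fin n) ⧸ N)) ''
        (I : Set (Fin n))))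
    (h : (∃ f : MulAut (FreeGroup (Fin n) ⧸ N) →* Matrix.ProjGenLinGroup (Fin d) K,
        ∃ s : FreeGroup (Fin n) ⧸ N, f (MulAut.conj s) ≠ 1) ∨
      ((∃ k : ℕ, derivedSeries (MulAut (FreeGroup (Fin n) ⧸ N)) k ≤
          (MulAut.conj : FreeGroup (Fin n) ⧸ N →* MulAut (FreeGroup (Fin n) ⧸ N)).range) ∧
        ∃ f : FreeGroup (Fin n) ⧸ N →* Matrix.ProjGenLinGroup (Fin d) K, f ≠ 1)) :
    ∃ p : ℕ, p.Prime ∧ CharP K p ∧ IsPGroup p U := by
  subst hU
  rcases h with ⟨f, hf⟩ | ⟨hOut, f, hf⟩
  · exact Pool.Agent.FSX.pgroup_aut N hn I hI hd f hf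
  · exact Pool.Agent.FSX.pgroup_simple N hn I hI hd hOut f hf

end Pool.Agent.Results.MP_6dc407_al.FactorPGroup
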